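import Pool.Agent.H70.OQ.Targets

/-!
# Module CLG: a formula applied to functions of the class
-/

set_option autoImplicit false

namespace Pool.Agent.H56.OQ.CLG

open Finset Pool.Agent.H70.OQ Pool.Agent.H6.NB Pool.Agent.H68.AC

/-- The answered queries of the paths to the leaves labelled `c`. -/
def paths {V : Type} (c : Bool) : DT V → List (List (V × Bool))
  | .leaf b => if b = c then [[]] else []
  | .node v l r => (paths c l).map (fun p => (v, false) :: p) ++
      (paths c r).map (fun p => (v, true) :: p)

theorem length_paths {V : Type} (c : Bool) (T : DT V) : (paths c T).length ≤ 2 ^ T.depth := by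
  induction T with
  | leaf b =>
    unfold paths
    split <;> simp [Pool.Agent.H68.AC.DT.depth]
  | node v l r ihl ihr =>
    change ((paths c l).map _ ++ (paths c r).map _).length ≤ 2 ^ (max l.depth r.depth + 1)
    rw [List.length_append, List.length_map, List.length_map, pow_succ]
    have h1 : 2 ^ l.depth ≤ 2 ^ max l.depth r.depth :=
      Nat.pow_le_pow_right (by norm_num) (le_max_left _ _)
    have h2 : 2 ^ r.depth ≤ 2 ^ max l.depth r.depth :=
      Nat.pow_le_pow_right (by norm_num) (le_max_right _ _)
    omega

theorem length_path {V : Type} (c : Bool) (T : DT V) : ∀ p ∈ paths c T, p.length ≤ T.depth := by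
  induction T with
  | leaf b =>
    intro p hp
    unfold paths at hp
    split at hp
    · simp only [List.mem_singleton] at hp
      subst hp
      simp
    · simp at hp
  | node v l r ihl ihr =>
    intro p hp
    change p ∈ (paths c l).map _ ++ (paths c r).map _ at hp
    change p.length ≤ max l.depth r.depth + 1
    rw [List.mem_append, List.mem_map, List.mem_map] at hp
    rcases hp with ⟨p', h1, rfl⟩ | ⟨p', h1, rfl⟩
    · have := ihl p' h1
      rw [List.length_cons]
      omega
    · have := ihr p' h1
      rw [List.length_cons]
      omega

theorem eval_iff {V : Type} (c : Bool) (T : DT V) (y : V → Bool) :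
    T.eval y = c ↔ ∃ p ∈ paths c T, ∀ q ∈ p, y q.1 = q.2 := by
  induction T with
  | leaf b =>
    change b = c ↔ ∃ p ∈ (if b = c then [[]] else []), _
    by_cases h : b = c
    · rw [if_pos h]
      exact ⟨fun _ => ⟨[], by simp, by simp⟩, fun _ => h⟩
    · rw [if_neg h]
      simp [h]
  | node v l r ihl ihr =>
    change cond (y v) (r.eval y) (l.eval y) = c ↔ ∃ p ∈ (paths c l).map _ ++ (paths c r).map _, _
    constructor
    · intro h
      cases hv : y v with
      | false =>
        rw [hv] at h
        obtain ⟨p, hp, hq⟩ := ihl.1 h
        refine ⟨(v, false) :: p, by simp [hp], fun q hq' => ?_⟩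
        rw [List.mem_cons] at hq'
        rcases hq' with rfl | hq'
        · exact hv
        · exact hq q hq'
      | true =>
        rw [hv] at h
        obtain ⟨p, hp, hq⟩ := ihr.1 h
        refine ⟨(v, true) :: p, by simp [hp], fun q hq' => ?_⟩
        rw [List.mem_cons] at hq'
        rcases hq' with rfl | hq'
        · exact hv
        · exact hq q hq'
    · rintro ⟨p, hp, hq⟩
      rw [List.mem_append, List.mem_map, List.mem_map] at hp
      rcases hp with ⟨p', h1, rfl⟩ | ⟨p', h1, rfl⟩
      · have hv : y v = false := hq (v, false) (by simp)
        rw [hv]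
        exact ihl.2 ⟨p', h1, fun q hq' => hq q (by simp [hq'])⟩
      · have hv : y v = true := hq (v, true) (by simp)
        rw [hv]
        exact ihr.2 ⟨p', h1, fun q hq' => hq q (by simp [hq'])⟩

theorem clg_ : T_CLG := by
  intro V V' S t d S' d' f φ hS ht hφ
  induction d generalizing f with
  | zero =>
    rintro ⟨T, hT, he⟩
    refine ⟨(paths true T).length, fun i y => decide (∃ j : Fin ((paths true T).get i).length,
      φ (((paths true T).get i).get j).1 y = !(((paths true T).get i).get j).2),
      fun _ => false, ?_, fun i => ?_, fun y => ?_⟩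
    · exact (length_paths true T).trans ((Nat.pow_le_pow_right (by norm_num) hT).trans ht)
    · refine ⟨((paths true T).get i).length, fun j => φ (((paths true T).get i).get j).1,
        fun j => !(((paths true T).get i).get j).2, ?_, fun j => hφ _, fun y => ?_⟩
      · refine (length_path true T _ (List.get_mem _ _)).trans (hT.trans ?_)
        exact (Nat.lt_two_pow_self).le.trans ht
      · rw [decide_eq_true_iff]
    · change f (fun v => φ v y) = true ↔ _
      rw [← he, eval_iff]
      constructor
      · rintro ⟨p, hp, hq⟩
        obtain ⟨i, rfl⟩ := List.get_of_mem hp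
        refine ⟨i, ?_⟩
        rw [decide_eq_false_iff_not]
        rintro ⟨j, hj⟩
        have := hq _ (List.get_mem ((paths true T).get i) j)
        rw [hj] at this
        simp at this
      · rintro ⟨i, hi⟩
        rw [decide_eq_false_iff_not] at hi
        refine ⟨(paths true T).get i, List.get_mem _ _, fun q hq => ?_⟩
        obtain ⟨j, rfl⟩ := List.get_of_mem hq
        by_contra hne
        refine hi ⟨j, ?_⟩
        revert hne
        cases φ (((paths true T).get i).get j).1 y <;> cases (((paths true T).get i).get j).2 <;> simp
  | succ d ih =>
    rintro ⟨m, g, b, hm, hg, hf⟩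
    exact ⟨m, fun i y => g i fun v => φ v y, b, hm.trans hS, fun i => ih (g i) (hg i),
      fun y => hf _⟩

end Pool.Agent.H56.OQ.CLG
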