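import Pool.Agent.H70.OQ.Targets

/-!
# Module FLG: flips of the answers of one level
-/

set_option autoImplicit false

namespace Pool.Agent.H56.OQ.FLG

open Finset Pool.Agent.H70.OQ Pool.Agent.H6.NB

theorem odd_flp {X : Type} [Fintype X] [DecidableEq X] (p : X → Prop) [DecidablePred p]
    (z : X → Bool) (x : X) :
    decide (Odd (univ.filter fun y => flp z x y = true ∧ p y).card) =
      xor (decide (Odd (univ.filter fun y => z y = true ∧ p y).card)) (decide (p x)) := by
  have key : ∀ w : X → Bool, w x = false →
      decide (Odd (univ.filter fun y => flp w x y = true ∧ p y).card) =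
      xor (decide (Odd (univ.filter fun y => w y = true ∧ p y).card)) (decide (p x)) := by
    intro w hw
    by_cases hp : p x
    · have h1 : (univ.filter fun y => flp w x y = true ∧ p y) =
          insert x (univ.filter fun y => w y = true ∧ p y) := by
        ext y
        simp only [mem_filter, mem_univ, true_and, mem_insert, flp]
        by_cases hy : y = x
        · subst hy
          simp [hw, hp]
        · rw [Function.update_of_ne hy]
          simp [hy]
      have h2 : x ∉ (univ.filter fun y => w y = true ∧ p y) := by
        simp [hw]
      rw [h1, card_insert_of_notMem h2]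
      by_cases h3 : Odd (univ.filter fun y => w y = true ∧ p y).card
      · have h4 : ¬ Odd ((univ.filter fun y => w y = true ∧ p y).card + 1) := by
          rw [Nat.not_odd_iff_even]
          exact h3.add_one
        simp [h3, h4, hp]
      · have h4 : Odd ((univ.filter fun y => w y = true ∧ p y).card + 1) := by
          rw [Nat.not_odd_iff_even] at h3
          exact h3.add_one
        simp [h3, h4, hp]
    · have h1 : (univ.filter fun y => flp w x y = true ∧ p y) =
          (univ.filter fun y => w y = true ∧ p y) := by
        ext y
        simp only [mem_filter, mem_univ, true_and, flp]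
        by_cases hy : y = x
        · subst hy
          simp [hp]
        · rw [Function.update_of_ne hy]
      rw [h1]
      simp [hp]
  cases hz : z x with
  | false => exact key z hz
  | true =>
    have h1 := key (flp z x) (by simp [flp, hz])
    have h2 : flp (flp z x) x = z := by
      funext y
      unfold flp
      by_cases hy : y = x
      · subst hy
        simp
      · simp [hy]
    rw [h2] at h1
    rw [h1]
    simp

theorem flg (h1 : T_EXG) : T_FLG := by
  intro X B Ω _ _ acc lev h j K G T U e hL hG
  obtain ⟨-, -, -, hd⟩ := h1 B Ω acc lev h hL
  have hne : ∀ z s, lev s ≠ j → flG acc lev h T U j e z s = e s := by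
    intro z s hs
    unfold flG
    rw [if_neg hs]
  have p1 : ∀ z x s, lev s ≤ j →
      dlG acc h T (U x) (flG acc lev h T U j e z) s = dlG acc h T (U x) e s := by
    intro z x s hs
    refine hd T (U x) _ _ s fun s' hs' => hne z s' (by omega)
  have hex : ∀ z x s, lev s ≤ j → exG acc h T (U x) (flG acc lev h T U j e z) s =
      xor (flG acc lev h T U j e z s) (dlG acc h T (U x) e s) := by
    intro z x s hs
    rw [← p1 z x s hs]
    unfold dlG
    simp
  have hex0 : ∀ x s, exG acc h T (U x) e s = xor (e s) (dlG acc h T (U x) e s) := by
    intro x s
    unfold dlG
    simp
  refine ⟨p1, fun z => ?_, fun z => ?_, fun z => ?_, fun z => ?_⟩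
  · funext s
    by_cases hs : lev s = j
    · unfold flG
      rw [if_pos hs, if_pos hs]
      have h2 : (univ.filter fun x => z x = true ∧ dlG acc h T (U x)
          (fun s => if lev s = j then
            xor (e s) (decide (Odd (univ.filter fun x => z x = true ∧ dlG acc h T (U x) e s = true).card))
            else e s) s = true) =
          univ.filter fun x => z x = true ∧ dlG acc h T (U x) e s = true := by
        refine filter_congr fun x _ => ?_
        have := p1 z x s hs.le
        unfold flG at this
        rw [this]
      rw [h2]
      simp
    · have h6 : flG acc lev h T U j (flG acc lev h T U j e z) z s =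
          flG acc lev h T U j e z s := if_neg hs
      rw [h6]
      exact hne z s hs
  · have h3 : ∀ s, lev s < j + 1 →
        dsG acc h T U (flG acc lev h T U j e z) s = dsG acc h T U e s := by
      intro s hs
      unfold dsG
      refine filter_congr fun x _ => ?_
      rw [p1 z x s (by omega)]
    constructor
    · intro ht s hs
      rw [← h3 s hs]
      exact ht s hs
    · intro ht s hs
      rw [h3 s hs]
      exact ht s hs
  · unfold dfx
    refine filter_congr fun x _ => ?_
    have h4 : G (U x) (exG acc h T (U x) (flG acc lev h T U j e z)) =
        hz acc lev h G T U j e x (flp z x) := by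
      unfold hz
      refine hG (U x) _ _ fun s hs => ?_
      by_cases hs' : lev s < j
      · rw [if_pos hs', hex z x s (by omega), hne z s (by omega), hex0]
      · have hs2 : lev s = j := by omega
        rw [if_neg hs', hex z x s (by omega)]
        unfold flG
        rw [if_pos hs2, if_pos hs2, odd_flp]
        rw [Bool.xor_assoc]
        congr 2
        cases dlG acc h T (U x) e s <;> rfl
    rw [h4]
    rfl
  · unfold dfh
    refine filter_congr fun x _ => ?_
    have h5 : G (U x) (fun s => if lev s < j then exG acc h T (U x) (flG acc lev h T U j e z) s
        else flG acc lev h T U j e z s) = hz acc lev h G T U j e x z := by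
      unfold hz
      refine hG (U x) _ _ fun s hs => ?_
      by_cases hs' : lev s < j
      · rw [if_pos hs', if_pos hs', hex z x s (by omega), hne z s (by omega), hex0]
      · rw [if_neg hs', if_neg hs']
    rw [h5]
    rfl

end Pool.Agent.H56.OQ.FLG
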