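import Pool.Agent.H70.OQ.Targets

/-!
# Module FMS: substitution of decision trees in formulas
-/

set_option autoImplicit false

namespace Pool.Agent.H56.OQ.FMS

open Finset Pool.Agent.H70.OQ Pool.Agent.H68.AC

/-- Replace the leaves `false` by `L` and the leaves `true` by `R`. -/
def graft {V : Type} (L R : DT V) : DT V → DT V
  | .leaf b => cond b R L
  | .node v l r => .node v (graft L R l) (graft L R r)

theorem eval_graft {V : Type} (L R T : DT V) (y : V → Bool) :
    (graft L R T).eval y = cond (T.eval y) (R.eval y) (L.eval y) := by
  induction T with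
  | leaf b => cases b <;> rfl
  | node v l r ihl ihr =>
    change cond (y v) ((graft L R r).eval y) ((graft L R l).eval y) = _
    rw [ihl, ihr]
    change _ = cond (cond (y v) (r.eval y) (l.eval y)) _ _
    cases y v <;> rfl

theorem depth_graft {V : Type} (L R T : DT V) :
    (graft L R T).depth ≤ T.depth + max L.depth R.depth := by
  induction T with
  | leaf b => cases b <;> simp [graft, DT.depth]
  | node v l r ihl ihr =>
    change max (graft L R l).depth (graft L R r).depth + 1 ≤ max l.depth r.depth + 1 + _
    omega

/-- Substitute the trees `T v` for the variables. -/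
def sub {V V' : Type} (T : V → DT V') : DT V → DT V'
  | .leaf b => .leaf b
  | .node v l r => graft (sub T l) (sub T r) (T v)

theorem eval_sub {V V' : Type} (T : V → DT V') (φ : V → (V' → Bool) → Bool)
    (hT : ∀ v y, (T v).eval y = φ v y) (A : DT V) (y : V' → Bool) :
    (sub T A).eval y = A.eval fun v => φ v y := by
  induction A with
  | leaf b => rfl
  | node v l r ihl ihr =>
    change (graft (sub T l) (sub T r) (T v)).eval y = cond (φ v y) _ _
    rw [eval_graft, ihl, ihr, hT]

theorem depth_sub {V V' : Type} (T : V → DT V') (u : ℕ) (hu : ∀ v, (T v).depth ≤ u) (A : DT V) :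
    (sub T A).depth ≤ A.depth * u := by
  induction A with
  | leaf b => simp [sub, DT.depth]
  | node v l r ihl ihr =>
    change (graft (sub T l) (sub T r) (T v)).depth ≤ (max l.depth r.depth + 1) * u
    refine (depth_graft _ _ _).trans ?_
    have h1 : max (sub T l).depth (sub T r).depth ≤ max l.depth r.depth * u := by
      refine max_le (ihl.trans (Nat.mul_le_mul_right _ (le_max_left _ _)))
        (ihr.trans (Nat.mul_le_mul_right _ (le_max_right _ _)))
    have h2 := hu v
    rw [add_mul, one_mul]
    omega

theorem fms : T_FMS := by
  intro V V' S t u d f φ hφ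
  induction d generalizing f with
  | zero =>
    rintro ⟨A, hA, he⟩
    choose T hT hTe using hφ
    refine ⟨sub T A, (depth_sub T u hT A).trans (Nat.mul_le_mul_right _ hA), fun y => ?_⟩
    rw [eval_sub T φ hTe, he]
  | succ d ih =>
    rintro ⟨m, g, b, hm, hg, hf⟩
    exact ⟨m, fun i y => g i fun v => φ v y, b, hm, fun i => ih (g i) (hg i), fun y => hf _⟩

end Pool.Agent.H56.OQ.FMS
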