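import Pool.Agent.H70.OQ.Targets

/-!
# Module MEG: the instances satisfy the hypotheses of the ideal world
-/

set_option autoImplicit false

namespace Pool.Agent.H56.OQ.MEG

open Finset Pool.Agent.H70.OQ Pool.Agent.H6.NB

theorem meg (h1 : T_FMS) : T_MEG := by
  intro B Ω nn qb D lev S t d h hS P
  have hloc : ∀ s, LocG lev (lev s) (accG D P s) := by
    intro s T e e' he
    refine hS.low s _ _ fun c hc => ?_
    cases c with
    | cst b => rfl
    | bas a => rfl
    | key s' => exact he s' hc
    | blk s' i v => rfl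
  refine ⟨⟨hloc, hS.lt⟩, fun s => ⟨?_, hloc s⟩⟩
  have h2 := h1 (PosG B Ω nn qb) (B ⊕ Ω) S t 1 d (D s)
    (fun c y => vlG (fun b => y (.inl b)) (fun s => y (.inr s)) P c) (fun c => ?_) (hS.fm s)
  · rw [mul_one] at h2
    exact h2
  · cases c with
    | cst b => exact ⟨.leaf b, by simp [Pool.Agent.H68.AC.DT.depth], fun y => rfl⟩
    | bas a =>
      refine ⟨.node (.inl a) (.leaf false) (.leaf true), by simp [Pool.Agent.H68.AC.DT.depth],
        fun y => ?_⟩
      change cond (y (.inl a)) true false = y (.inl a)
      cases y (.inl a) <;> rfl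
    | key s' =>
      refine ⟨.node (.inr s') (.leaf false) (.leaf true), by simp [Pool.Agent.H68.AC.DT.depth],
        fun y => ?_⟩
      change cond (y (.inr s')) true false = y (.inr s')
      cases y (.inr s') <;> rfl
    | blk s' i v => exact ⟨.leaf (P s' i v), by simp [Pool.Agent.H68.AC.DT.depth], fun y => rfl⟩

end Pool.Agent.H56.OQ.MEG
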