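import Pool.Agent.H70.OQ.Targets

/-!
# Module FMM: monotonicity of the classes of formulas
-/

set_option autoImplicit false

namespace Pool.Agent.H56.OQ.FMM

open Finset Pool.Agent.H70.OQ

theorem fmm : T_FMM := by
  intro V S S' t t' d f hS ht
  induction d generalizing f with
  | zero =>
    rintro ⟨T, hT, he⟩
    exact ⟨T, hT.trans ht, he⟩
  | succ d ih =>
    rintro ⟨m, g, b, hm, hg, hf⟩
    exact ⟨m, g, b, hm.trans hS, fun i => ih (g i) (hg i), hf⟩

end Pool.Agent.H56.OQ.FMM
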